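import Pool.Agent.Lib.MP_4faf9f_co.Main

set_option autoImplicit false

/-!
# MP_4faf9f_co, Q1: the answer is positive

The coefficient of a monomial with exponent `m` in `𝒬(B)` is the number of words `w` of content `m`
whose stable sorting permutation lies in `B`.  Replacing the inverse descent class by the union of
the classes below `J` (the permutations `τ` with `Des(τ⁻¹) ⊆ J`, i.e. the inverses of the sorting
permutations of the words `u` of one fixed content `α`), the two sides become
`#{(u, w) : sort w * sort u ∈ B}` and `#{(u, w) : sort u * sort w ∈ B}`, `u` of content `α` and `w`
of content `m`.  By the radix sort identity both count pairs of words by the sorting permutation of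
the lexicographically ordered word of pairs, in the two possible orders of the two digits; for
symmetric `𝒬(B)` the order of the letters is irrelevant.  Inclusion-exclusion gives the single
classes.  Only the symmetry of `𝒬(B)` is used.
-/

namespace Pool.Agent.Results.MP_4faf9f_co.ProductsCommute

open Equiv Pool.Agent.Lib.MP_4faf9f_co

/-- For every `n`, every fine set `B ⊆ S_n` and every `J`,
`𝒬(B · D_{n,J}^{-1}) = 𝒬(D_{n,J}^{-1} · B)`. -/
theorem result (n : ℕ) (B : Finset (Perm (Fin n))) (hB : IsFine B.val) (J : Finset ℕ) :
    Q (prodMultiset B (invDescentClass n J)) = Q (prodMultiset (invDescentClass n J) B) :=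
  main B hB.1 J

end Pool.Agent.Results.MP_4faf9f_co.ProductsCommute
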